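import Pool.Agent.Q266.PT.Minor

/-!
# Pairs in triples, and separating cliques with a smallest part
-/

set_option autoImplicit false

open Finset

namespace Pool.Agent.Q266.PT

variable {V : Type*} [Fintype V] [DecidableEq V]

/-- the sum of `c` over the sets containing `P` -/
def inc (c : Finset V → ℚ) (P : Finset V) : ℚ := ∑ T, if P ⊆ T then c T else 0

theorem inc_add (c d : Finset V → ℚ) (P : Finset V) :
    inc (fun T => c T + d T) P = inc c P + inc d P := by
  simp only [inc, ← Finset.sum_add_distrib]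
  exact Finset.sum_congr rfl fun T _ => by split_ifs <;> simp

theorem inc_sub (c d : Finset V → ℚ) (P : Finset V) :
    inc (fun T => c T - d T) P = inc c P - inc d P := by
  simp only [inc, ← Finset.sum_sub_distrib]
  exact Finset.sum_congr rfl fun T _ => by split_ifs <;> simp

theorem inc_mul (a : ℚ) (c : Finset V → ℚ) (P : Finset V) :
    inc (fun T => a * c T) P = a * inc c P := by
  simp only [inc, Finset.mul_sum]
  exact Finset.sum_congr rfl fun T _ => by split_ifs <;> simp

theorem inc_single (K : Finset V) (a : ℚ) (P : Finset V) :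
    inc (fun T => if T = K then a else 0) P = if P ⊆ K then a else 0 := by
  unfold inc
  rw [Finset.sum_eq_single K]
  · simp
  · intro T _ hT
    simp [hT]
  · intro h
    exact absurd (Finset.mem_univ _) h

theorem inc_eq_sum (c : Finset V → ℚ) (P : Finset V) (F : Finset (Finset V))
    (hF : ∀ T ∈ F, P ⊆ T) (h0 : ∀ T, P ⊆ T → T ∉ F → c T = 0) : inc c P = ∑ T ∈ F, c T := by
  unfold inc
  rw [← Finset.sum_filter]
  symm
  apply Finset.sum_subset
  · intro T hT
    simp [hF T hT]
  · intro T hT hT'
    exact h0 T (by simpa using hT) hT'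

/-- every triple contains three pairs -/
theorem sum_pairs (c : Finset V → ℚ) (hc : ∀ T, T.card ≠ 3 → c T = 0) :
    ∑ P ∈ univ.filter (fun P : Finset V => P.card = 2), inc c P = 3 * ∑ T, c T := by
  unfold inc
  rw [Finset.sum_comm, Finset.mul_sum]
  refine Finset.sum_congr rfl fun T _ => ?_
  by_cases hT : T.card = 3
  · rw [← Finset.sum_filter, Finset.sum_const, nsmul_eq_mul]
    congr 1
    have : (univ.filter (fun P : Finset V => P.card = 2)).filter (fun P => P ⊆ T) =
        T.powersetCard 2 := by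
      ext P
      simp [Finset.mem_powersetCard, and_comm]
    rw [this, Finset.card_powersetCard, hT]
    norm_num [Nat.choose]
  · simp [hc T hT]

theorem card_pairs_at {T : Finset V} (hT : T.card = 3) {x : V} (hx : x ∈ T) :
    ((univ.filter (fun P : Finset V => P.card = 2 ∧ x ∈ P)).filter (fun P => P ⊆ T)).card = 2 := by
  have : (univ.filter (fun P : Finset V => P.card = 2 ∧ x ∈ P)).filter (fun P => P ⊆ T) =
      (T.erase x).image (fun y => {x, y}) := by
    ext P
    simp only [Finset.mem_filter, Finset.mem_univ, true_and, Finset.mem_image, Finset.mem_erase]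
    constructor
    · rintro ⟨⟨h2, hxP⟩, hPT⟩
      obtain ⟨a, b, hab, rfl⟩ := Finset.card_eq_two.1 h2
      simp only [Finset.mem_insert, Finset.mem_singleton] at hxP
      rcases hxP with rfl | rfl
      · exact ⟨b, ⟨hab.symm, hPT (by simp)⟩, rfl⟩
      · exact ⟨a, ⟨hab, hPT (by simp)⟩, Finset.pair_comm _ _⟩
    · rintro ⟨y, ⟨hy, hyT⟩, rfl⟩
      refine ⟨⟨Finset.card_pair hy.symm, by simp⟩, ?_⟩
      intro z hz
      simp only [Finset.mem_insert, Finset.mem_singleton] at hz
      rcases hz with rfl | rfl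
      exacts [hx, hyT]
  rw [this, Finset.card_image_of_injOn, Finset.card_erase_of_mem hx, hT]
  intro y hy z hz hyz
  simp only [Finset.coe_erase, Set.mem_sdiff, Finset.mem_coe, Set.mem_singleton_iff] at hy hz
  have h1 : y ∈ ({x, z} : Finset V) := by
    have : ({x, y} : Finset V) = {x, z} := hyz
    rw [← this]; simp
  simp only [Finset.mem_insert, Finset.mem_singleton] at h1
  exact h1.resolve_left hy.2

/-- a point of a triple is in two of its pairs -/
theorem sum_pairs_at (c : Finset V → ℚ) (hc : ∀ T, T.card ≠ 3 → c T = 0) (x : V) :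
    ∑ P ∈ univ.filter (fun P : Finset V => P.card = 2 ∧ x ∈ P), inc c P =
      2 * ∑ T ∈ univ.filter (fun T : Finset V => x ∈ T), c T := by
  unfold inc
  rw [Finset.sum_comm, Finset.mul_sum, Finset.sum_filter]
  refine Finset.sum_congr rfl fun T _ => ?_
  by_cases hT : T.card = 3
  · rw [← Finset.sum_filter, Finset.sum_const, nsmul_eq_mul]
    by_cases hx : x ∈ T
    · rw [if_pos hx, card_pairs_at hT hx]
      norm_num
    · rw [if_neg hx]
      have : (univ.filter (fun P : Finset V => P.card = 2 ∧ x ∈ P)).filter (fun P => P ⊆ T) = ∅ := by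
        rw [Finset.filter_eq_empty_iff]
        intro P hP hPT
        exact hx (hPT (Finset.mem_filter.1 hP).2.2)
      rw [this]
      simp
  · simp [hc T hT]

/-- the triangles of `H` inside `U` -/
def Tri (H : SimpleGraph V) (U T : Finset V) : Prop := T ⊆ U ∧ T.card = 3 ∧ H.IsClique (T : Set V)

/-- `K` is a clique with at most three vertices which separates `C` from the rest of `U` -/
structure Adm (H : SimpleGraph V) (U K C : Finset V) : Prop where
  KU : K ⊆ U
  clique : H.IsClique (K : Set V)
  card : K.card ≤ 3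
  CU : C ⊆ U
  disj : Disjoint K C
  ne : C.Nonempty
  closed : ∀ a ∈ C, ∀ b ∈ U, H.Adj a b → b ∈ K ∪ C

variable {H : SimpleGraph V} {U K C : Finset V}

theorem Adm.tri_subset (hA : Adm H U K C) {T : Finset V} (hT : Tri H U T) (hTC : ¬ Disjoint T C) :
    T ⊆ K ∪ C := by
  rw [Finset.not_disjoint_iff] at hTC
  obtain ⟨a, haT, haC⟩ := hTC
  intro b hb
  by_cases hab : a = b
  · subst hab
    exact Finset.mem_union_right _ haC
  · exact hA.closed a haC b (hT.1 hb) (hT.2.2 (by exact_mod_cast haT) (by exact_mod_cast hb) hab)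

theorem Adm.reach (hA : Adm H U K C) (hmin : ∀ K' C', Adm H U K' C' → C.card ≤ C'.card)
    {L : Finset V} (hL : L.card = 3) (hLc : H.IsClique (L : Set V)) (hLU : L ⊆ K ∪ C) {a b : V}
    (ha : a ∈ K ∪ C) (hb : b ∈ K ∪ C) (haL : a ∉ L) (hbL : b ∉ L) :
    Reach H (((K ∪ C : Finset V) : Set V) \ L) a b := by
  classical
  by_contra hcon
  set X : Set V := ((K ∪ C : Finset V) : Set V) \ L with hX
  have haX : a ∈ X := ⟨by exact_mod_cast ha, by exact_mod_cast haL⟩
  have hbX : b ∈ X := ⟨by exact_mod_cast hb, by exact_mod_cast hbL⟩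
  have hKCU : K ∪ C ⊆ U := Finset.union_subset hA.KU hA.CU
  -- the component of a point which does not meet `K`
  have key : ∀ a b : V, a ∈ X → b ∈ X → ¬ Reach H X a b → (∃ x ∈ K, Reach H X a x) := by
    intro a b haX hbX hab
    by_contra hK
    push Not at hK
    set D : Finset V := univ.filter (fun z => Reach H X a z) with hD
    have hDX : ∀ z ∈ D, z ∈ X := fun z hz => Reach.mem (Finset.mem_filter.1 hz).2 haX
    have hDC : D ⊆ C := by
      intro z hz
      have h1 := (hDX z hz).1
      have h2 : z ∈ K ∪ C := by exact_mod_cast h1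
      rcases Finset.mem_union.1 h2 with h | h
      · exact absurd (Finset.mem_filter.1 hz).2 (hK z h)
      · exact h
    have hAdm : Adm H U L D := by
      refine ⟨hLU.trans hKCU, hLc, hL.le, hDC.trans hA.CU, ?_, ?_, ?_⟩
      · rw [Finset.disjoint_right]
        intro z hz hzL
        exact (hDX z hz).2 (by exact_mod_cast hzL)
      · exact ⟨a, Finset.mem_filter.2 ⟨Finset.mem_univ _, Relation.ReflTransGen.refl⟩⟩
      · intro z hz y hy hzy
        have h1 := hA.closed z (hDC hz) y hy hzy
        by_cases hyL : y ∈ L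
        · exact Finset.mem_union_left _ hyL
        · apply Finset.mem_union_right
          refine Finset.mem_filter.2 ⟨Finset.mem_univ _, ?_⟩
          exact Relation.ReflTransGen.tail (Finset.mem_filter.1 hz).2
            ⟨hzy, hDX z hz, by exact_mod_cast h1, by exact_mod_cast hyL⟩
    have hDeq : D = C := Finset.eq_of_subset_of_card_le hDC (hmin L D hAdm)
    have hbC : b ∉ C := by
      rw [← hDeq]
      intro h
      exact hab (Finset.mem_filter.1 h).2
    have hbK : b ∈ K := by
      have h1 : b ∈ K ∪ C := by exact_mod_cast hbX.1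
      exact (Finset.mem_union.1 h1).resolve_right hbC
    have hLK : L ⊆ K := by
      intro z hz
      rcases Finset.mem_union.1 (hLU hz) with h | h
      · exact h
      · rw [← hDeq] at h
        exact absurd (by exact_mod_cast hz) (hDX z h).2
    have hLK' : L = K := Finset.eq_of_subset_of_card_le hLK (by rw [hL]; exact hA.card)
    exact hbX.2 (by rw [hLK']; exact_mod_cast hbK)
  obtain ⟨x, hxK, hx⟩ := key a b haX hbX hcon
  obtain ⟨y, hyK, hy⟩ := key b a hbX haX (fun h => hcon h.symm)
  apply hcon
  by_cases hxy : x = y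
  · subst hxy
    exact hx.trans hy.symm
  · refine hx.trans (Reach.trans ?_ hy.symm)
    exact Relation.ReflTransGen.single ⟨hA.clique (by exact_mod_cast hxK) (by exact_mod_cast hyK) hxy,
      Reach.mem hx haX, Reach.mem hy hbX⟩

theorem exists_third {P T : Finset V} (hP : P.card = 2) (hT : T.card = 3) (hPT : P ⊆ T) :
    ∃ w, w ∉ P ∧ T = insert w P := by
  have h1 : (T \ P).card = 1 := by
    rw [Finset.card_sdiff_of_subset hPT, hP, hT]
  obtain ⟨w, hw⟩ := Finset.card_eq_one.1 h1
  have hw' : w ∈ T \ P := by rw [hw]; simp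
  refine ⟨w, (Finset.mem_sdiff.1 hw').2, ?_⟩
  rw [← Finset.sdiff_union_of_subset hPT, hw]
  rfl

/-- an edge is in at most two of the triangles inside `K ∪ C` -/
theorem Adm.card_le_two (hA : Adm H U K C) (hmin : ∀ K' C', Adm H U K' C' → C.card ≤ C'.card)
    (h5 : ¬ HasMinor H (⊤ : SimpleGraph (Fin 5)))
    (h33 : ¬ HasMinor H (completeBipartiteGraph (Fin 3) (Fin 3))) {P : Finset V}
    (hP : P.card = 2) (F : Finset (Finset V)) (hF : ∀ T ∈ F, P ⊆ T ∧ Tri H (K ∪ C) T) :
    F.card ≤ 2 := by
  classical
  by_contra hcon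
  push Not at hcon
  obtain ⟨T0, h0, T1, h1, T2, h2, h01, h02, h12⟩ := Finset.two_lt_card.1 hcon
  obtain ⟨u, v, huv, rfl⟩ := Finset.card_eq_two.1 hP
  obtain ⟨w0, hw0, e0⟩ := exists_third hP (hF T0 h0).2.2.1 (hF T0 h0).1
  obtain ⟨w1, hw1, e1⟩ := exists_third hP (hF T1 h1).2.2.1 (hF T1 h1).1
  obtain ⟨w2, hw2, e2⟩ := exists_third hP (hF T2 h2).2.2.1 (hF T2 h2).1
  set w : Fin 3 → V := ![w0, w1, w2] with hw
  have hT : ∀ i, Tri H (K ∪ C) (insert (w i) {u, v}) := by
    intro i
    fin_cases i
    · exact e0 ▸ (hF T0 h0).2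
    · exact e1 ▸ (hF T1 h1).2
    · exact e2 ▸ (hF T2 h2).2
  have hwn : ∀ i, w i ∉ ({u, v} : Finset V) := by
    intro i
    fin_cases i
    exacts [hw0, hw1, hw2]
  have n01 : w0 ≠ w1 := fun h => h01 (by rw [e0, e1, h])
  have n02 : w0 ≠ w2 := fun h => h02 (by rw [e0, e2, h])
  have n12 : w1 ≠ w2 := fun h => h12 (by rw [e1, e2, h])
  have hinj : Function.Injective w := by
    intro i j hij
    fin_cases i <;> fin_cases j <;> first
      | rfl
      | exact absurd hij n01
      | exact absurd hij n02
      | exact absurd hij n12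
      | exact absurd hij.symm n01
      | exact absurd hij.symm n02
      | exact absurd hij.symm n12
  have hwu : ∀ i, w i ≠ u := fun i h => hwn i (by simp [h])
  have hwv : ∀ i, w i ≠ v := fun i h => hwn i (by simp [h])
  have hin : ∀ i, w i ∈ K ∪ C := fun i => (hT i).1 (by simp)
  have huin : u ∈ K ∪ C := (hT 0).1 (by simp)
  have hvin : v ∈ K ∪ C := (hT 0).1 (by simp)
  have := minor_of_three (H := H) (u := u) (v := v) (w := w)
    (X := ((K ∪ C : Finset V) : Set V) \ {u, v}) ?_ ?_ ?_ hinj ?_ ?_ ?_
  · rcases this with h | h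
    exacts [h5 h, h33 h]
  · exact (hT 0).2.2 (by simp) (by simp) huv
  · exact fun i => (hT i).2.2 (by simp) (by simp) (hwu i).symm
  · exact fun i => (hT i).2.2 (by simp) (by simp) (hwv i).symm
  · simp
  · simp
  · intro i j k hij hik hjk
    have := hA.reach hmin (L := insert (w i) {u, v}) (hT i).2.1 (hT i).2.2 (hT i).1 (hin j) (hin k)
      (by simp [hwu j, hwv j, hinj.ne hij.symm]) (by simp [hwu k, hwv k, hinj.ne hik.symm])
    refine this.mono ?_
    intro x hx
    obtain ⟨hx1, hx2⟩ := hx
    simp only [Finset.coe_insert, Finset.coe_singleton, Set.mem_insert_iff,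
      Set.mem_singleton_iff, not_or] at hx2
    refine ⟨⟨hx1, ?_⟩, ?_⟩
    · simp [hx2.2.1, hx2.2.2]
    · simpa using hx2.1

end Pool.Agent.Q266.PT
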