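import Pool.Agent.Q266.PT.Inc

/-!
# The lattice of the triangles of a planar graph

If `u` is supported on linearly independent triangles of a graph without the minors `K₅` and
`K₃,₃`, and its sums over the edges are congruent modulo 2 to those of an integral function, then
`u` is integral.
-/

set_option autoImplicit false

open Finset

namespace Pool.Agent.Q266.PT

variable {V : Type*} [Fintype V] [DecidableEq V]

/-- the integers in `ℚ` -/
abbrev Zs : AddSubgroup ℚ := AddSubgroup.zmultiples (1 : ℚ)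
/-- the even integers in `ℚ` -/
abbrev Es : AddSubgroup ℚ := AddSubgroup.zmultiples (2 : ℚ)

theorem mem_Zs {q : ℚ} : q ∈ Zs ↔ ∃ z : ℤ, (z : ℚ) = q := by
  rw [AddSubgroup.mem_zmultiples_iff]
  simp

theorem mem_Es {q : ℚ} : q ∈ Es ↔ ∃ z : ℤ, 2 * (z : ℚ) = q := by
  rw [AddSubgroup.mem_zmultiples_iff]
  simp [mul_comm]

theorem Es_le {q : ℚ} (h : q ∈ Es) : q ∈ Zs := by
  obtain ⟨z, rfl⟩ := mem_Es.1 h
  exact mem_Zs.2 ⟨2 * z, by push_cast; ring⟩

theorem two_mul_mem {q : ℚ} (h : q ∈ Zs) : 2 * q ∈ Es := by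
  obtain ⟨z, rfl⟩ := mem_Zs.1 h
  exact mem_Es.2 ⟨z, rfl⟩

theorem neg_mem_Es {q : ℚ} (h : q ∈ Es) : -q ∈ Es := neg_mem h

/-- the sign of `a` modulo 2 relative to `θ` -/
noncomputable def sgn (θ a : ℚ) : ℚ := by
  classical exact if a - θ ∈ Es then 1 else if a + θ ∈ Es then -1 else 0

variable {θ : ℚ}

theorem sgn_cases (θ a : ℚ) : sgn θ a = 1 ∨ sgn θ a = -1 ∨ sgn θ a = 0 := by
  unfold sgn
  split_ifs <;> simp

theorem sgn_one {a : ℚ} (h : sgn θ a = 1) : a - θ ∈ Es := by
  unfold sgn at h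
  split_ifs at h with h1 h2
  · exact h1
  · norm_num at h
  · norm_num at h

theorem sgn_neg_one {a : ℚ} (h : sgn θ a = -1) : a + θ ∈ Es := by
  unfold sgn at h
  split_ifs at h with h1 h2
  · norm_num at h
  · exact h2
  · norm_num at h

theorem sgn_of_sub {a : ℚ} (h : a - θ ∈ Es) : sgn θ a = 1 := by
  unfold sgn
  rw [if_pos h]

theorem not_both (hθ : θ ∉ Zs) {a : ℚ} (h1 : a - θ ∈ Es) (h2 : a + θ ∈ Es) : False := by
  have h3 := sub_mem h2 h1
  obtain ⟨z, hz⟩ := mem_Es.1 h3
  apply hθ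
  exact mem_Zs.2 ⟨z, by linarith⟩

theorem sgn_of_add (hθ : θ ∉ Zs) {a : ℚ} (h : a + θ ∈ Es) : sgn θ a = -1 := by
  unfold sgn
  rw [if_neg (fun h' => not_both hθ h' h), if_pos h]

theorem sgn_of_Zs (hθ : θ ∉ Zs) {a : ℚ} (ha : a ∈ Zs) : sgn θ a = 0 := by
  unfold sgn
  rw [if_neg, if_neg]
  · intro h
    apply hθ
    have := sub_mem (Es_le h) ha
    rwa [add_sub_cancel_left] at this
  · intro h
    apply hθ
    have := sub_mem ha (Es_le h)
    rwa [sub_sub_cancel] at this

theorem sgn_add (hθ : θ ∉ Zs) {a b : ℚ} (h : a + b ∈ Es) : sgn θ a + sgn θ b = 0 := by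
  rcases sgn_cases θ a with h1 | h1 | h1
  · have h2 := sgn_one h1
    have h3 : b + θ ∈ Es := by
      have := sub_mem h h2
      rwa [show a + b - (a - θ) = b + θ by ring] at this
    rw [h1, sgn_of_add hθ h3]
    norm_num
  · have h2 := sgn_neg_one h1
    have h3 : b - θ ∈ Es := by
      have := sub_mem h h2
      rwa [show a + b - (a + θ) = b - θ by ring] at this
    rw [h1, sgn_of_sub h3]
    norm_num
  · rcases sgn_cases θ b with h4 | h4 | h4
    · have h2 := sgn_one h4
      have h3 : a + θ ∈ Es := by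
        have := sub_mem h h2
        rwa [show a + b - (b - θ) = a + θ by ring] at this
      rw [sgn_of_add hθ h3] at h1
      norm_num at h1
    · have h2 := sgn_neg_one h4
      have h3 : a - θ ∈ Es := by
        have := sub_mem h h2
        rwa [show a + b - (b + θ) = a - θ by ring] at this
      rw [sgn_of_sub h3] at h1
      norm_num at h1
    · rw [h1, h4, add_zero]

theorem sgn_congr {a : ℚ} {ε : ℚ} (hε : ε = 1 ∨ ε = -1) (h : sgn θ a = ε) :
    a - ε * θ ∈ Es := by
  rcases hε with rfl | rfl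
  · rw [one_mul]; exact sgn_one h
  · rw [neg_one_mul, sub_neg_eq_add]; exact sgn_neg_one h

/-- subsets of `K` with two elements -/
theorem pairs_of_card_two {K P : Finset V} (hK : K.card ≤ 2) (hP : P.card = 2) (h : P ⊆ K) :
    P = K := Finset.eq_of_subset_of_card_le h (by omega)

theorem pairs_of_three {x y z : V} (hxy : x ≠ y) (hxz : x ≠ z) (hyz : y ≠ z) {P : Finset V}
    (hP : P.card = 2) (h : P ⊆ {x, y, z}) : P = {x, y} ∨ P = {x, z} ∨ P = {y, z} := by
  obtain ⟨a, b, hab, rfl⟩ := Finset.card_eq_two.1 hP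
  have ha : a ∈ ({x, y, z} : Finset V) := h (by simp)
  have hb : b ∈ ({x, y, z} : Finset V) := h (by simp)
  simp only [Finset.mem_insert, Finset.mem_singleton] at ha hb
  rcases ha with rfl | rfl | rfl <;> rcases hb with rfl | rfl | rfl <;>
    first
    | exact absurd rfl hab
    | simp [Finset.pair_comm]

/-- the sums of an integral function over the pairs in `K`, if those over the other pairs are
even -/
theorem parity {c : Finset V → ℚ} (hc : ∀ T, T.card ≠ 3 → c T = 0) (hZ : ∀ T, c T ∈ Zs)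
    {K : Finset V} (h : ∀ P : Finset V, P.card = 2 → ¬ P ⊆ K → inc c P ∈ Es) (x : V) :
    ∑ P ∈ univ.filter (fun P : Finset V => P.card = 2 ∧ x ∈ P ∧ P ⊆ K), inc c P ∈ Es := by
  have h1 := sum_pairs_at c hc x
  have h2 : ∑ P ∈ univ.filter (fun P : Finset V => P.card = 2 ∧ x ∈ P), inc c P ∈ Es := by
    rw [h1]
    exact two_mul_mem (sum_mem fun T _ => hZ T)
  have h3 : ∑ P ∈ univ.filter (fun P : Finset V => P.card = 2 ∧ x ∈ P), inc c P =
      ∑ P ∈ univ.filter (fun P : Finset V => P.card = 2 ∧ x ∈ P ∧ P ⊆ K), inc c P +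
      ∑ P ∈ univ.filter (fun P : Finset V => P.card = 2 ∧ x ∈ P ∧ ¬ P ⊆ K), inc c P := by
    rw [← Finset.sum_filter_add_sum_filter_not (univ.filter (fun P : Finset V =>
      P.card = 2 ∧ x ∈ P)) (fun P => P ⊆ K)]
    simp only [Finset.filter_filter, and_assoc]
  have h4 : ∑ P ∈ univ.filter (fun P : Finset V => P.card = 2 ∧ x ∈ P ∧ ¬ P ⊆ K), inc c P ∈ Es :=
    sum_mem fun P hP => h P (Finset.mem_filter.1 hP).2.1 (Finset.mem_filter.1 hP).2.2.2
  have h5 := sub_mem h2 h4
  rwa [h3, add_sub_cancel_right] at h5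

theorem parity_two {c : Finset V → ℚ} (hc : ∀ T, T.card ≠ 3 → c T = 0) (hZ : ∀ T, c T ∈ Zs)
    {K : Finset V} (hK : K.card = 2)
    (h : ∀ P : Finset V, P.card = 2 → ¬ P ⊆ K → inc c P ∈ Es) : inc c K ∈ Es := by
  obtain ⟨x, y, hxy, rfl⟩ := Finset.card_eq_two.1 hK
  have h1 := parity hc hZ h x
  have : univ.filter (fun P : Finset V => P.card = 2 ∧ x ∈ P ∧ P ⊆ {x, y}) = {{x, y}} := by
    ext P
    simp only [Finset.mem_filter, Finset.mem_univ, true_and, Finset.mem_singleton]
    constructor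
    · rintro ⟨h2, -, h3⟩
      exact pairs_of_card_two (by rw [hK]) h2 h3
    · rintro rfl
      exact ⟨hK, by simp, subset_rfl⟩
  rwa [this, Finset.sum_singleton] at h1

theorem parity_three {c : Finset V → ℚ} (hc : ∀ T, T.card ≠ 3 → c T = 0) (hZ : ∀ T, c T ∈ Zs)
    {x y z : V} (hxy : x ≠ y) (hxz : x ≠ z) (hyz : y ≠ z)
    (h : ∀ P : Finset V, P.card = 2 → ¬ P ⊆ {x, y, z} → inc c P ∈ Es) :
    inc c {x, y} + inc c {x, z} ∈ Es ∧ inc c {x, y} + inc c {y, z} ∈ Es := by
  have hne1 : ({x, y} : Finset V) ≠ {x, z} := by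
    intro e
    have : y ∈ ({x, z} : Finset V) := by rw [← e]; simp
    simp [hxy.symm, hyz] at this
  have hne2 : ({x, y} : Finset V) ≠ {y, z} := by
    intro e
    have : x ∈ ({y, z} : Finset V) := by rw [← e]; simp
    simp [hxy, hxz] at this
  constructor
  · have h1 := parity hc hZ h x
    have : univ.filter (fun P : Finset V => P.card = 2 ∧ x ∈ P ∧ P ⊆ {x, y, z}) =
        {{x, y}, {x, z}} := by
      ext P
      simp only [Finset.mem_filter, Finset.mem_univ, true_and, Finset.mem_insert,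
        Finset.mem_singleton]
      constructor
      · rintro ⟨h2, h4, h3⟩
        rcases pairs_of_three hxy hxz hyz h2 h3 with rfl | rfl | rfl
        · exact Or.inl rfl
        · exact Or.inr rfl
        · simp [hxy, hxz] at h4
      · rintro (rfl | rfl)
        · exact ⟨Finset.card_pair hxy, by simp, by intro a; simp; tauto⟩
        · exact ⟨Finset.card_pair hxz, by simp, by intro a; simp; tauto⟩
    rwa [this, Finset.sum_pair hne1] at h1
  · have h1 := parity hc hZ h y
    have : univ.filter (fun P : Finset V => P.card = 2 ∧ y ∈ P ∧ P ⊆ {x, y, z}) =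
        {{x, y}, {y, z}} := by
      ext P
      simp only [Finset.mem_filter, Finset.mem_univ, true_and, Finset.mem_insert,
        Finset.mem_singleton]
      constructor
      · rintro ⟨h2, h4, h3⟩
        rcases pairs_of_three hxy hxz hyz h2 h3 with rfl | rfl | rfl
        · exact Or.inl rfl
        · simp [hxy.symm, hyz] at h4
        · exact Or.inr rfl
      · rintro (rfl | rfl)
        · exact ⟨Finset.card_pair hxy, by simp, by intro a; simp; tauto⟩
        · exact ⟨Finset.card_pair hyz, by simp, by intro a; simp; tauto⟩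
    rwa [this, Finset.sum_pair hne2] at h1

end Pool.Agent.Q266.PT
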