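import Mathlib

/-!
# Nonnegative solutions of linear equations with linearly independent support
-/

set_option autoImplicit false

open Finset

namespace Pool.Agent.Q266.PT

theorem exists_basic {ι M : Type*} [Fintype ι] [AddCommGroup M] [Module ℚ M]
    (A : (ι → ℚ) →ₗ[ℚ] M) (W : ι → ℚ) (hW : ∀ i, 0 ≤ W i) :
    ∃ W' : ι → ℚ, (∀ i, 0 ≤ W' i) ∧ (∀ i, W i = 0 → W' i = 0) ∧ A W' = A W ∧
      ∀ c : ι → ℚ, (∀ i, W' i = 0 → c i = 0) → A c = 0 → ∀ i, c i = 0 := by
  classical
  induction hn : (univ.filter (fun i => W i ≠ 0)).card using Nat.strong_induction_on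
    generalizing W with
  | _ n ih =>
  by_cases hind : ∀ c : ι → ℚ, (∀ i, W i = 0 → c i = 0) → A c = 0 → ∀ i, c i = 0
  · exact ⟨W, hW, fun i h => h, rfl, hind⟩
  push Not at hind
  obtain ⟨c0, hc0, hAc0, i1, hi1⟩ := hind
  obtain ⟨c, hc, hAc, i2, hi2⟩ : ∃ c : ι → ℚ, (∀ i, W i = 0 → c i = 0) ∧ A c = 0 ∧ ∃ i, 0 < c i := by
    rcases lt_or_gt_of_ne hi1 with h | h
    · exact ⟨-c0, fun i hi => by simp [hc0 i hi], by rw [map_neg, hAc0, neg_zero], i1, by simpa using h⟩
    · exact ⟨c0, hc0, hAc0, i1, h⟩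
  obtain ⟨i0, hi0, hmin⟩ := Finset.exists_min_image (univ.filter (fun i => 0 < c i))
    (fun i => W i / c i) ⟨i2, by simpa using hi2⟩
  have hi0' : 0 < c i0 := (Finset.mem_filter.1 hi0).2
  set t := W i0 / c i0 with ht
  have ht0 : 0 ≤ t := div_nonneg (hW i0) hi0'.le
  have hW1 : ∀ i, 0 ≤ (W - t • c) i := by
    intro i
    simp only [Pi.sub_apply, Pi.smul_apply, smul_eq_mul]
    rcases le_or_gt (c i) 0 with h | h
    · have := mul_nonpos_of_nonneg_of_nonpos ht0 h
      have := hW i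
      linarith
    · have h1 := hmin i (by simpa using h)
      rw [le_div_iff₀ h] at h1
      linarith
  have hi00 : (W - t • c) i0 = 0 := by
    simp only [Pi.sub_apply, Pi.smul_apply, smul_eq_mul, ht]
    rw [div_mul_cancel₀ _ hi0'.ne', sub_self]
  have hsub : ∀ i, W i = 0 → (W - t • c) i = 0 := by
    intro i hi
    simp [hi, hc i hi]
  have hlt : (univ.filter (fun i => (W - t • c) i ≠ 0)).card < n := by
    rw [← hn]
    apply Finset.card_lt_card
    refine ⟨fun i hi => ?_, fun h => ?_⟩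
    · simp only [Finset.mem_filter, Finset.mem_univ, true_and] at hi ⊢
      exact fun h => hi (hsub i h)
    · have h1 : i0 ∈ univ.filter (fun i => W i ≠ 0) := by
        simp only [Finset.mem_filter, Finset.mem_univ, true_and]
        intro h'
        exact hi0'.ne' (hc i0 h')
      have h2 := h h1
      simp only [Finset.mem_filter, Finset.mem_univ, true_and] at h2
      exact h2 hi00
  obtain ⟨W', h1, h2, h3, h4⟩ := ih _ hlt (W - t • c) hW1 rfl
  refine ⟨W', h1, fun i hi => h2 i (hsub i hi), ?_, h4⟩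
  rw [h3, map_sub, map_smul, hAc, smul_zero, sub_zero]

end Pool.Agent.Q266.PT
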