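import Pool.Agent.Q266.PT.Key

/-!
# The lattice of the triangles of a planar graph: induction over separating cliques
-/

set_option autoImplicit false

open Finset

namespace Pool.Agent.Q266.PT

variable {V : Type*} [Fintype V] [DecidableEq V] {H : SimpleGraph V} {U K C : Finset V}

theorem Tri.of_disjoint {T : Finset V} (hT : Tri H U T) (h : Disjoint T C) : Tri H (U \ C) T := by
  refine ⟨?_, hT.2⟩
  intro x hx
  exact Finset.mem_sdiff.2 ⟨hT.1 hx, Finset.disjoint_left.1 h hx⟩

theorem Tri.disjoint {T : Finset V} (hT : Tri H (U \ C) T) : Disjoint T C := by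
  rw [Finset.disjoint_left]
  intro x hx
  exact (Finset.mem_sdiff.1 (hT.1 hx)).2

theorem Tri.mono {U' T : Finset V} (hT : Tri H U T) (h : U ⊆ U') : Tri H U' T :=
  ⟨hT.1.trans h, hT.2⟩

/-- values of `inc` for a function supported on triangles which meet `C` -/
theorem inc_link {c : Finset V → ℚ} (hc : ∀ T, Disjoint T C ∨ ¬ Tri H U T → c T = 0)
    (P : Finset V) (F : Finset (Finset V))
    (hF : ∀ T, T ∈ F ↔ P ⊆ T ∧ ¬ Disjoint T C ∧ Tri H U T) : inc c P = ∑ T ∈ F, c T := by
  apply inc_eq_sum
  · exact fun T hT => ((hF T).1 hT).1
  · intro T hPT hT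
    apply hc
    by_contra hcon
    push Not at hcon
    exact hT ((hF T).2 ⟨hPT, hcon.1, hcon.2⟩)

theorem three_signs {a b c : ℚ} (ha : a = 1 ∨ a = -1 ∨ a = 0) (hb : b = 1 ∨ b = -1 ∨ b = 0)
    (hc : c = 1 ∨ c = -1 ∨ c = 0) (h1 : a + b ∈ Es) (h2 : a + c ∈ Es)
    (h3 : ∃ z : ℤ, a + b + c = 3 * z) : b = a ∧ c = a := by
  obtain ⟨p, hp⟩ := mem_Es.1 h1
  obtain ⟨q, hq⟩ := mem_Es.1 h2
  obtain ⟨r, hr⟩ := h3
  rcases ha with rfl | rfl | rfl <;> rcases hb with rfl | rfl | rfl <;>
    rcases hc with rfl | rfl | rfl <;>
    first
    | exact ⟨rfl, rfl⟩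
    | (exfalso
       norm_num at hp hq hr
       first
       | (have h : (2 * p : ℤ) = 1 := by exact_mod_cast hp
          omega)
       | (have h : (2 * p : ℤ) = -1 := by exact_mod_cast hp
          omega)
       | (have h : (2 * q : ℤ) = 1 := by exact_mod_cast hq
          omega)
       | (have h : (2 * q : ℤ) = -1 := by exact_mod_cast hq
          omega)
       | (have h : (1 : ℤ) = 3 * r := by exact_mod_cast hr
          omega)
       | (have h : (-1 : ℤ) = 3 * r := by exact_mod_cast hr
          omega))

theorem key (h5 : ¬ HasMinor H (⊤ : SimpleGraph (Fin 5)))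
    (h33 : ¬ HasMinor H (completeBipartiteGraph (Fin 3) (Fin 3))) :
    ∀ (n : ℕ) (U : Finset V), U.card = n → ∀ (S : Finset (Finset V)),
    (∀ T ∈ S, Tri H U T) →
    (∀ c : Finset V → ℚ, (∀ T, T ∉ S → c T = 0) →
      (∀ P : Finset V, P.card = 2 → inc c P = 0) → ∀ T, c T = 0) →
    ∀ u y : Finset V → ℚ, (∀ T, T ∉ S → u T = 0) → (∀ T, ¬ Tri H U T → y T = 0) →
    (∀ T, y T ∈ Zs) → (∀ P : Finset V, P.card = 2 → inc u P - inc y P ∈ Es) →
    ∀ T, u T ∈ Zs := by
  classical
  intro n
  induction n using Nat.strong_induction_on with
  | _ n ih =>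
  intro U hU S hS hind u y hu hy hyZ h
  rcases Finset.eq_empty_or_nonempty U with rfl | hU0
  · intro T
    rw [hu T]
    · exact zero_mem _
    · intro hT
      have h1 := hS T hT
      have h2 := Finset.card_le_card h1.1
      rw [h1.2.1] at h2
      simp at h2
  -- a separating clique with a smallest part
  obtain ⟨⟨K, C⟩, hA, hmin⟩ := Finset.exists_min_image
    (univ.filter (fun q : Finset V × Finset V => Adm H U q.1 q.2)) (fun q => q.2.card)
    ⟨(∅, U), by
      simp only [Finset.mem_filter, Finset.mem_univ, true_and]
      exact ⟨Finset.empty_subset _, by simp, by simp, subset_rfl, Finset.disjoint_empty_left _, hU0,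
        fun a _ b hb _ => Finset.mem_union_right _ hb⟩⟩
  replace hA : Adm H U K C := (Finset.mem_filter.1 hA).2
  replace hmin : ∀ K' C', Adm H U K' C' → C.card ≤ C'.card := fun K' C' h' =>
    hmin (K', C') (Finset.mem_filter.2 ⟨Finset.mem_univ _, h'⟩)
  have hlt : (U \ C).card < n := by
    rw [← hU]
    apply Finset.card_lt_card
    rw [Finset.ssubset_iff_subset_ne]
    refine ⟨Finset.sdiff_subset, fun e => ?_⟩
    obtain ⟨a, ha⟩ := hA.ne
    have h1 : a ∈ U \ C := by rw [e]; exact hA.CU ha
    exact (Finset.mem_sdiff.1 h1).2 ha
  have hKC : Disjoint K C := hA.disj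
  have hKU : K ⊆ U \ C := fun x hx => Finset.mem_sdiff.2
    ⟨hA.KU hx, Finset.disjoint_left.1 hKC hx⟩
  set v : Finset V → ℚ := fun T => u T - y T with hv
  set v2 : Finset V → ℚ := fun T => if Disjoint T C then 0 else v T with hv2
  have hvTri : ∀ T, ¬ Tri H U T → v T = 0 := by
    intro T hT
    simp only [hv]
    rw [hu T (fun h' => hT (hS T h')), hy T hT, sub_zero]
  have hincv : ∀ P : Finset V, P.card = 2 → inc v P ∈ Es := by
    intro P hP
    rw [hv, inc_sub]
    exact h P hP
  -- the triangles on `P` which meet `C`
  set G : Finset V → Finset (Finset V) := fun P =>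
    univ.filter (fun T => P ⊆ T ∧ ¬ Disjoint T C ∧ Tri H U T) with hG
  have hGmem : ∀ P T, T ∈ G P ↔ P ⊆ T ∧ ¬ Disjoint T C ∧ Tri H U T := by
    intro P T
    simp [hG]
  have hGKC : ∀ P T, T ∈ G P → P ⊆ T ∧ Tri H (K ∪ C) T := by
    intro P T hT
    obtain ⟨h1, h2, h3⟩ := (hGmem P T).1 hT
    exact ⟨h1, hA.tri_subset h3 h2, h3.2⟩
  have hGcard : ∀ P : Finset V, P.card = 2 → (G P).card ≤ 2 := fun P hP =>
    hA.card_le_two hmin h5 h33 hP (G P) (hGKC P)
  have hGcard' : ∀ P : Finset V, P.card = 2 → P ⊆ K → K.card = 3 → (G P).card ≤ 1 := by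
    intro P hP hPK hK
    have hKG : K ∉ G P := fun h' => ((hGmem P K).1 h').2.1 hKC
    have h1 := hA.card_le_two hmin h5 h33 hP (insert K (G P)) (by
      intro T hT
      rcases Finset.mem_insert.1 hT with rfl | hT
      · exact ⟨hPK, Finset.subset_union_left, hK, hA.clique⟩
      · exact hGKC P T hT)
    rw [Finset.card_insert_of_notMem hKG] at h1
    omega
  have hv2tri : ∀ T, Disjoint T C ∨ ¬ Tri H U T → v2 T = 0 := by
    rintro T (hT | hT)
    · simp only [hv2]; rw [if_pos hT]
    · simp only [hv2]; rw [hvTri T hT, ite_self]
  have hv2G : ∀ P, inc v2 P = ∑ T ∈ G P, v T := by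
    intro P
    rw [inc_link hv2tri P (G P) (hGmem P)]
    refine Finset.sum_congr rfl fun T hT => ?_
    simp only [hv2]
    rw [if_neg ((hGmem P T).1 hT).2.1]
  have hv23 : ∀ T : Finset V, T.card ≠ 3 → v2 T = 0 := fun T hT =>
    hv2tri T (Or.inr fun h' => hT h'.2.1)
  have hv2E : ∀ P : Finset V, P.card = 2 → ¬ P ⊆ K → inc v2 P ∈ Es := by
    intro P hP hPK
    by_cases hd : Disjoint P C
    · have : G P = ∅ := by
        rw [Finset.eq_empty_iff_forall_notMem]
        intro T hT
        apply hPK
        intro x hx
        have h1 := (hGKC P T hT).2.1 ((hGKC P T hT).1 hx)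
        exact (Finset.mem_union.1 h1).resolve_right (Finset.disjoint_left.1 hd hx)
      rw [hv2G, this, Finset.sum_empty]
      exact zero_mem _
    · have : inc v2 P = inc v P := by
        unfold inc
        refine Finset.sum_congr rfl fun T _ => ?_
        split_ifs with hPT
        · simp only [hv2]
          rw [if_neg]
          intro hTC
          exact hd (Finset.disjoint_of_subset_left hPT hTC)
        · rfl
      rw [this]
      exact hincv P hP
  -- first claim: `v2` is integral
  have hA2 : ∀ T, v2 T ∈ Zs := by
    by_contra hcon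
    push Not at hcon
    obtain ⟨T0, hT0⟩ := hcon
    have hT0C : ¬ Disjoint T0 C := by
      intro h'
      apply hT0
      rw [hv2tri T0 (Or.inl h')]
      exact zero_mem _
    have hθ : v T0 ∉ Zs := by
      simp only [hv2] at hT0
      rwa [if_neg hT0C] at hT0
    set θ := v T0 with hθdef
    set s : Finset V → ℚ := fun T => if Disjoint T C then 0 else sgn θ (v T) with hs
    have hsS : ∀ T, T ∉ S → s T = 0 := by
      intro T hT
      simp only [hs]
      split_ifs
      · rfl
      · apply sgn_of_Zs hθ
        simp only [hv]
        rw [hu T hT, zero_sub]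
        exact neg_mem (hyZ T)
    have hsT0 : s T0 = 1 := by
      simp only [hs]
      rw [if_neg hT0C]
      apply sgn_of_sub
      rw [← hθdef, sub_self]
      exact zero_mem _
    have hstri : ∀ T, Disjoint T C ∨ ¬ Tri H U T → s T = 0 := by
      rintro T (hT | hT)
      · simp only [hs]; rw [if_pos hT]
      · exact hsS T (fun h' => hT (hS T h'))
    have hs3 : ∀ T : Finset V, T.card ≠ 3 → s T = 0 := fun T hT =>
      hstri T (Or.inr fun h' => hT h'.2.1)
    have hscases : ∀ T, s T = 1 ∨ s T = -1 ∨ s T = 0 := by
      intro T
      simp only [hs]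
      split_ifs
      · simp
      · exact sgn_cases _ _
    have hsZ : ∀ T, s T ∈ Zs := by
      intro T
      rcases hscases T with h1 | h1 | h1 <;> rw [h1]
      · exact mem_Zs.2 ⟨1, by norm_num⟩
      · exact mem_Zs.2 ⟨-1, by norm_num⟩
      · exact zero_mem _
    have hsG : ∀ P, inc s P = ∑ T ∈ G P, sgn θ (v T) := by
      intro P
      rw [inc_link hstri P (G P) (hGmem P)]
      refine Finset.sum_congr rfl fun T hT => ?_
      simp only [hs]
      rw [if_neg ((hGmem P T).1 hT).2.1]
    have hs0 : ∀ P : Finset V, P.card = 2 → ¬ P ⊆ K → inc s P = 0 := by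
      intro P hP hPK
      have h1 := hv2E P hP hPK
      rw [hv2G] at h1
      rw [hsG]
      have h2 := hGcard P hP
      interval_cases h3 : (G P).card
      · rw [Finset.card_eq_zero.1 h3, Finset.sum_empty]
      · obtain ⟨T, hT⟩ := Finset.card_eq_one.1 h3
        rw [hT, Finset.sum_singleton] at h1 ⊢
        exact sgn_of_Zs hθ (Es_le h1)
      · obtain ⟨T, T', hTT, hT⟩ := Finset.card_eq_two.1 h3
        rw [hT, Finset.sum_pair hTT] at h1 ⊢
        exact sgn_add hθ h1
    have hsE : ∀ P : Finset V, P.card = 2 → ¬ P ⊆ K → inc s P ∈ Es := fun P hP hPK => by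
      rw [hs0 P hP hPK]; exact zero_mem _
    obtain ⟨m, hm⟩ : ∃ m : ℤ, ∑ T, s T = m := by
      obtain ⟨m, hm⟩ := mem_Zs.1 (sum_mem (fun T (_ : T ∈ (univ : Finset (Finset V))) => hsZ T))
      exact ⟨m, hm.symm⟩
    have htot := sum_pairs s hs3
    rw [hm] at htot
    -- the sums over the pairs in `K` are equal
    have hε : ∃ ε : ℚ, (ε = 0 ∨ (K.card = 3 ∧ (ε = 1 ∨ ε = -1))) ∧
        ∀ P : Finset V, P.card = 2 → inc s P = if P ⊆ K then ε else 0 := by
      have hK3 := hA.card
      interval_cases hK : K.card
      · refine ⟨0, Or.inl rfl, fun P hP => ?_⟩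
        rw [ite_self]
        apply hs0 P hP
        intro h'
        have := Finset.card_le_card h'
        omega
      · refine ⟨0, Or.inl rfl, fun P hP => ?_⟩
        rw [ite_self]
        apply hs0 P hP
        intro h'
        have := Finset.card_le_card h'
        omega
      · refine ⟨0, Or.inl rfl, fun P hP => ?_⟩
        rw [ite_self]
        by_cases hPK : P ⊆ K
        · have hPK' : P = K := pairs_of_card_two hK.le hP hPK
          subst hPK'
          have h1 := parity_two hs3 hsZ hP hsE
          have h2 : ∑ Q ∈ univ.filter (fun Q : Finset V => Q.card = 2), inc s Q = inc s P := by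
            apply Finset.sum_eq_single
            · intro Q hQ hQP
              apply hs0 Q (Finset.mem_filter.1 hQ).2
              intro h'
              exact hQP (pairs_of_card_two hK.le (Finset.mem_filter.1 hQ).2 h')
            · intro h'
              exact (h' (Finset.mem_filter.2 ⟨Finset.mem_univ _, hP⟩)).elim
          rw [h2] at htot
          obtain ⟨z, hz⟩ := mem_Es.1 h1
          have h3 : |inc s P| ≤ 2 := by
            rw [hsG]
            refine (Finset.abs_sum_le_sum_abs _ _).trans ?_
            have : ∑ T ∈ G P, |sgn θ (v T)| ≤ ∑ T ∈ G P, (1 : ℚ) := by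
              refine Finset.sum_le_sum fun T _ => ?_
              rcases sgn_cases θ (v T) with h' | h' | h' <;> rw [h'] <;> norm_num
            refine this.trans ?_
            rw [Finset.sum_const, nsmul_eq_mul, mul_one]
            exact_mod_cast hGcard P hP
          rw [abs_le] at h3
          rw [htot] at hz h3 ⊢
          have h4 : (2 * z : ℤ) = 3 * m := by exact_mod_cast hz
          have h5' : (-2 : ℤ) ≤ 3 * m := by exact_mod_cast h3.1
          have h6' : (3 * m : ℤ) ≤ 2 := by exact_mod_cast h3.2
          have : m = 0 := by omega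
          rw [this]
          norm_num
        · exact hs0 P hP hPK
      · obtain ⟨a, b, c, hab, hac, hbc, hKeq⟩ := Finset.card_eq_three.1 hK
        have hval : ∀ P : Finset V, P.card = 2 → P ⊆ K →
            inc s P = 1 ∨ inc s P = -1 ∨ inc s P = 0 := by
          intro P hP hPK
          have h1 := hGcard' P hP hPK rfl
          rw [hsG]
          interval_cases h2 : (G P).card
          · rw [Finset.card_eq_zero.1 h2, Finset.sum_empty]
            simp
          · obtain ⟨T, hT⟩ := Finset.card_eq_one.1 h2
            rw [hT, Finset.sum_singleton]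
            exact sgn_cases _ _
        have sab : ({a, b} : Finset V) ⊆ K := by rw [hKeq]; intro t; simp; tauto
        have sac : ({a, c} : Finset V) ⊆ K := by rw [hKeq]; intro t; simp; tauto
        have sbc : ({b, c} : Finset V) ⊆ K := by rw [hKeq]; intro t; simp; tauto
        have hpar := parity_three hs3 hsZ hab hac hbc (by rw [← hKeq]; exact hsE)
        have hne1 : ({a, b} : Finset V) ≠ {a, c} := by
          intro e
          have : b ∈ ({a, c} : Finset V) := by rw [← e]; simp
          simp [hab.symm, hbc] at this
        have hne2 : ({a, b} : Finset V) ≠ {b, c} := by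
          intro e
          have : a ∈ ({b, c} : Finset V) := by rw [← e]; simp
          simp [hab, hac] at this
        have hne3 : ({a, c} : Finset V) ≠ {b, c} := by
          intro e
          have : a ∈ ({b, c} : Finset V) := by rw [← e]; simp
          simp [hab, hac] at this
        have h2 : ∑ Q ∈ univ.filter (fun Q : Finset V => Q.card = 2), inc s Q =
            ∑ Q ∈ ({{a, b}, {a, c}, {b, c}} : Finset (Finset V)), inc s Q := by
          symm
          apply Finset.sum_subset
          · intro Q hQ
            simp only [Finset.mem_insert, Finset.mem_singleton] at hQ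
            rw [Finset.mem_filter]
            refine ⟨Finset.mem_univ _, ?_⟩
            rcases hQ with rfl | rfl | rfl
            exacts [Finset.card_pair hab, Finset.card_pair hac, Finset.card_pair hbc]
          · intro Q hQ hQ'
            apply hs0 Q (Finset.mem_filter.1 hQ).2
            intro h'
            apply hQ'
            rw [hKeq] at h'
            rcases pairs_of_three hab hac hbc (Finset.mem_filter.1 hQ).2 h' with rfl | rfl | rfl <;>
              simp
        rw [h2, Finset.sum_insert (by simp [hne1, hne2]), Finset.sum_pair hne3] at htot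
        obtain ⟨e1, e2⟩ := three_signs (hval _ (Finset.card_pair hab) sab)
          (hval _ (Finset.card_pair hac) sac) (hval _ (Finset.card_pair hbc) sbc) hpar.1 hpar.2
          ⟨m, by rw [← htot]; ring⟩
        refine ⟨inc s {a, b}, ?_, fun P hP => ?_⟩
        · rcases hval _ (Finset.card_pair hab) sab with h' | h' | h'
          · exact Or.inr ⟨rfl, Or.inl h'⟩
          · exact Or.inr ⟨rfl, Or.inr h'⟩
          · exact Or.inl h'
        · split_ifs with hPK
          · rw [hKeq] at hPK
            rcases pairs_of_three hab hac hbc hP hPK with rfl | rfl | rfl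
            exacts [rfl, e1, e2]
          · exact hs0 P hP hPK
    obtain ⟨ε, hε, hsε⟩ := hε
    have hK0 : ∀ T, ¬ Disjoint T C → T ≠ K := by
      rintro T hT rfl
      exact hT hKC
    rcases hε with rfl | ⟨hK3, hε⟩
    · have := hind s hsS (fun P hP => by rw [hsε P hP, ite_self]) T0
      rw [hsT0] at this
      norm_num at this
    have hε0 : ε ≠ 0 := by rcases hε with rfl | rfl <;> norm_num
    have hεε : ε * ε = 1 := by rcases hε with rfl | rfl <;> norm_num
    have hKS : K ∉ S := by
      intro hKS
      have := hind (fun T => s T - (if T = K then ε else 0)) (fun T hT => by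
        show s T - (if T = K then ε else 0) = 0
        rw [hsS T hT, if_neg (fun e => hT (by rw [e]; exact hKS)), sub_zero])
        (fun P hP => by rw [inc_sub, inc_single, hsε P hP, sub_self]) T0
      rw [hsT0, if_neg (hK0 T0 hT0C), sub_zero] at this
      norm_num at this
    -- the values of `v2` at the pairs in `K`
    have hval : ∀ P : Finset V, P.card = 2 → P ⊆ K → inc v2 P - ε * θ ∈ Es := by
      intro P hP hPK
      have h1 := hGcard' P hP hPK hK3
      have h2 := hsε P hP
      rw [if_pos hPK, hsG] at h2
      interval_cases h3 : (G P).card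
      · rw [Finset.card_eq_zero.1 h3, Finset.sum_empty] at h2
        exact absurd h2.symm hε0
      · obtain ⟨T, hT⟩ := Finset.card_eq_one.1 h3
        rw [hT, Finset.sum_singleton] at h2
        rw [hv2G, hT, Finset.sum_singleton]
        exact sgn_congr hε h2
    -- the induction hypothesis
    have := ih (U \ C).card hlt (U \ C) rfl (insert K (S.filter (fun T => Disjoint T C)))
      (by
        intro T hT
        rcases Finset.mem_insert.1 hT with rfl | hT
        · exact ⟨hKU, hK3, hA.clique⟩
        · obtain ⟨h1, h2⟩ := Finset.mem_filter.1 hT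
          exact (hS T h1).of_disjoint h2)
      (by
        intro c hc hc0
        have hcS : ∀ T, T ≠ K → (T ∉ S ∨ ¬ Disjoint T C) → c T = 0 := by
          intro T hTK hT
          apply hc T
          rw [Finset.mem_insert, Finset.mem_filter]
          rintro (h' | ⟨h1, h2⟩)
          · exact hTK h'
          · rcases hT with hT | hT
            exacts [hT h1, hT h2]
        have h1 := hind (fun T => (c T - (if T = K then c K else 0)) + (c K * ε) * s T)
          (fun T hT => by
            show (c T - (if T = K then c K else 0)) + (c K * ε) * s T = 0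
            rw [hsS T hT, mul_zero, add_zero]
            split_ifs with hTK
            · rw [hTK, sub_self]
            · rw [hcS T hTK (Or.inl hT), sub_zero])
          (fun P hP => by
            rw [inc_add, inc_sub, inc_single, inc_mul, hc0 P hP, hsε P hP]
            split_ifs
            · linear_combination (c K) * hεε
            · ring)
        have h2 := h1 T0
        rw [hcS T0 (hK0 T0 hT0C) (Or.inr hT0C), if_neg (hK0 T0 hT0C), hsT0, sub_zero, zero_add,
          mul_one] at h2
        have hcK : c K = 0 := (mul_eq_zero.1 h2).resolve_right hε0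
        intro T
        have h3 := h1 T
        rw [hcK, ite_self, zero_mul, zero_mul, add_zero, sub_zero] at h3
        exact h3)
      (fun T => (if Disjoint T C then u T else 0) + (if T = K then ε * θ else 0))
      (fun T => if Disjoint T C then y T else 0)
      (by
        intro T hT
        rw [Finset.mem_insert, Finset.mem_filter, not_or, not_and_or] at hT
        rw [if_neg hT.1, add_zero]
        split_ifs with h1
        · exact hu T (hT.2.resolve_right (fun h' => h' h1))
        · rfl)
      (by
        intro T hT
        split_ifs with h1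
        · exact hy T (fun h' => hT (h'.of_disjoint h1))
        · rfl)
      (by
        intro T
        split_ifs
        exacts [hyZ T, zero_mem _])
      (by
        intro P hP
        rw [← inc_sub]
        have e : (fun T => ((if Disjoint T C then u T else 0) + (if T = K then ε * θ else 0)) -
            (if Disjoint T C then y T else 0)) =
            fun T => (v T - v2 T) + (if T = K then ε * θ else 0) := by
          funext T
          simp only [hv2, hv]
          split_ifs <;> ring
        rw [e, inc_add, inc_sub, inc_single]
        split_ifs with hPK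
        · have h1 := sub_mem (hincv P hP) (hval P hP hPK)
          rwa [show inc v P - (inc v2 P - ε * θ) = inc v P - inc v2 P + ε * θ by ring] at h1
        · rw [add_zero]
          exact sub_mem (hincv P hP) (hv2E P hP hPK)) K
    simp only at this
    rw [if_pos hKC, if_true, hu K hKS, zero_add] at this
    apply hθ
    rcases hε with rfl | rfl
    · rwa [one_mul] at this
    · rw [neg_one_mul] at this
      have h' := neg_mem this
      rwa [neg_neg] at h'
  -- second claim
  have hB : ∃ δ ∈ Zs, (∀ P : Finset V, P.card = 2 → P ⊆ K → inc v2 P - δ ∈ Es) ∧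
      (K.card ≠ 3 → δ = 0) := by
    have hK3 := hA.card
    interval_cases hK : K.card
    · refine ⟨0, zero_mem _, fun P hP hPK => ?_, fun _ => rfl⟩
      have := Finset.card_le_card hPK
      omega
    · refine ⟨0, zero_mem _, fun P hP hPK => ?_, fun _ => rfl⟩
      have := Finset.card_le_card hPK
      omega
    · refine ⟨0, zero_mem _, fun P hP hPK => ?_, fun _ => rfl⟩
      have hPK' : P = K := pairs_of_card_two hK.le hP hPK
      subst hPK'
      rw [sub_zero]
      exact parity_two hv23 hA2 hP hv2E
    · obtain ⟨a, b, c, hab, hac, hbc, hKeq⟩ := Finset.card_eq_three.1 hK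
      have hpar := parity_three hv23 hA2 hab hac hbc (by rw [← hKeq]; exact hv2E)
      have hz : ∀ P, inc v2 P ∈ Zs := by
        intro P
        unfold inc
        refine sum_mem fun T _ => ?_
        split_ifs
        exacts [hA2 T, zero_mem _]
      have h2z := two_mul_mem (hz {a, b})
      refine ⟨inc v2 {a, b}, hz _, fun P hP hPK => ?_, fun h' => absurd rfl h'⟩
      rw [hKeq] at hPK
      rcases pairs_of_three hab hac hbc hP hPK with rfl | rfl | rfl
      · rw [sub_self]; exact zero_mem _
      · have := sub_mem hpar.1 h2z
        rwa [show inc v2 {a, b} + inc v2 {a, c} - 2 * inc v2 {a, b} =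
          inc v2 {a, c} - inc v2 {a, b} by ring] at this
      · have := sub_mem hpar.2 h2z
        rwa [show inc v2 {a, b} + inc v2 {b, c} - 2 * inc v2 {a, b} =
          inc v2 {b, c} - inc v2 {a, b} by ring] at this
  obtain ⟨δ, hδ, hδ1, hδ2⟩ := hB
  have hfin := ih (U \ C).card hlt (U \ C) rfl (S.filter (fun T => Disjoint T C))
    (by
      intro T hT
      obtain ⟨h1, h2⟩ := Finset.mem_filter.1 hT
      exact (hS T h1).of_disjoint h2)
    (by
      intro c hc hc0
      exact hind c (fun T hT => hc T (fun h' => hT (Finset.mem_filter.1 h').1)) hc0)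
    (fun T => if Disjoint T C then u T else 0)
    (fun T => (if Disjoint T C then y T else 0) - (if T = K then δ else 0))
    (by
      intro T hT
      rw [Finset.mem_filter, not_and_or] at hT
      split_ifs with h1
      · exact hu T (hT.resolve_right (fun h' => h' h1))
      · rfl)
    (by
      intro T hT
      have e1 : (if Disjoint T C then y T else 0) = 0 := by
        split_ifs with h1
        · exact hy T (fun h' => hT (h'.of_disjoint h1))
        · rfl
      have e2 : (if T = K then δ else 0) = 0 := by
        split_ifs with h1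
        · apply hδ2
          intro h3
          apply hT
          rw [h1]
          exact ⟨hKU, h3, hA.clique⟩
        · rfl
      rw [e1, e2, sub_zero])
    (by
      intro T
      refine sub_mem ?_ ?_ <;> split_ifs
      exacts [hyZ T, zero_mem _, hδ, zero_mem _])
    (by
      intro P hP
      rw [← inc_sub]
      have e : (fun T => (if Disjoint T C then u T else 0) -
          ((if Disjoint T C then y T else 0) - (if T = K then δ else 0))) =
          fun T => (v T - v2 T) + (if T = K then δ else 0) := by
        funext T
        simp only [hv2, hv]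
        split_ifs <;> ring
      rw [e, inc_add, inc_sub, inc_single]
      split_ifs with hPK
      · have h1 := sub_mem (hincv P hP) (hδ1 P hP hPK)
        rwa [show inc v P - (inc v2 P - δ) = inc v P - inc v2 P + δ by ring] at h1
      · rw [add_zero]
        exact sub_mem (hincv P hP) (hv2E P hP hPK))
  intro T
  by_cases hT : Disjoint T C
  · have := hfin T
    rwa [if_pos hT] at this
  · have h1 := hA2 T
    simp only [hv2, hv] at h1
    rw [if_neg hT] at h1
    have := add_mem h1 (hyZ T)
    rwa [sub_add_cancel] at this

end Pool.Agent.Q266.PT
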