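import Mathlib

/-!
# Minors with branch sets, and three triangles on one edge
-/

set_option autoImplicit false

namespace Pool.Agent.Q266.PT

/-- `K` is a minor of `H`: there are pairwise disjoint connected (and so nonempty) sets `B i` of
vertices of `H` such that `H` has an edge between `B i` and `B j` if `i` and `j` are adjacent
in `K`. -/
def HasMinor {V W : Type*} (H : SimpleGraph V) (K : SimpleGraph W) : Prop :=
  ∃ B : W → Set V, (∀ i, (H.induce (B i)).Connected) ∧ (∀ i j, i ≠ j → Disjoint (B i) (B j)) ∧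
    ∀ i j, K.Adj i j → ∃ a ∈ B i, ∃ b ∈ B j, H.Adj a b

variable {V : Type*} (H : SimpleGraph V)

/-- reachability inside the set `S` -/
def Reach (S : Set V) : V → V → Prop :=
  Relation.ReflTransGen (fun a b => H.Adj a b ∧ a ∈ S ∧ b ∈ S)

variable {H}

theorem Reach.symm {S : Set V} {a b : V} (h : Reach H S a b) : Reach H S b a := by
  induction h with
  | refl => exact Relation.ReflTransGen.refl
  | tail _ h ih => exact Relation.ReflTransGen.head ⟨h.1.symm, h.2.2, h.2.1⟩ ih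

theorem Reach.trans {S : Set V} {a b c : V} (h : Reach H S a b) (h' : Reach H S b c) :
    Reach H S a c := Relation.ReflTransGen.trans h h'

theorem Reach.mono {S S' : Set V} (hS : S ⊆ S') {a b : V} (h : Reach H S a b) :
    Reach H S' a b := by
  induction h with
  | refl => exact Relation.ReflTransGen.refl
  | tail _ h ih => exact ih.tail ⟨h.1, hS h.2.1, hS h.2.2⟩

theorem Reach.mem {S : Set V} {a b : V} (h : Reach H S a b) (ha : a ∈ S) : b ∈ S := by
  induction h with
  | refl => exact ha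
  | tail _ h _ => exact h.2.2

theorem Reach.inside {S : Set V} {a b : V} (h : Reach H S a b) :
    Reach H {z | Reach H S a z} a b := by
  induction h with
  | refl => exact Relation.ReflTransGen.refl
  | tail h' h ih => exact ih.tail ⟨h.1, h', Relation.ReflTransGen.tail h' h⟩

theorem Reach.induce {S : Set V} {a b : V} (h : Reach H S a b) (ha : a ∈ S) (hb : b ∈ S) :
    (H.induce S).Reachable ⟨a, ha⟩ ⟨b, hb⟩ := by
  induction h with
  | refl => exact SimpleGraph.Reachable.refl _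
  | tail h' h ih =>
    exact (ih h.2.1).trans (SimpleGraph.Adj.reachable (by simpa using h.1))

theorem connected_insert (Z : Set V) (w : V) (h1 : ∀ z ∈ Z, ∀ z' ∈ Z, Reach H Z z z')
    (h2 : Z = ∅ ∨ ∃ z ∈ Z, H.Adj w z) : (H.induce (insert w Z)).Connected := by
  have key : ∀ x ∈ insert w Z, Reach H (insert w Z) w x := by
    intro x hx
    rcases hx with rfl | hx
    · exact Relation.ReflTransGen.refl
    · rcases h2 with rfl | ⟨z, hz, hwz⟩
      · exact absurd hx (Set.notMem_empty x)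
      · refine Reach.trans (b := z) ?_ ((h1 z hz x hx).mono (Set.subset_insert _ _))
        exact Relation.ReflTransGen.single
          ⟨hwz, Set.mem_insert _ _, Set.mem_insert_of_mem _ hz⟩
  have : Nonempty (insert w Z : Set V) := ⟨⟨w, Set.mem_insert _ _⟩⟩
  refine SimpleGraph.Connected.mk ?_
  rintro ⟨x, hx⟩ ⟨y, hy⟩
  exact ((key x hx).symm.trans (key y hy)).induce hx hy

theorem connected_of (Z : Set V) (h0 : Z.Nonempty) (h1 : ∀ z ∈ Z, ∀ z' ∈ Z, Reach H Z z z') :
    (H.induce Z).Connected := by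
  have : Nonempty Z := h0.to_subtype
  refine SimpleGraph.Connected.mk ?_
  rintro ⟨x, hx⟩ ⟨y, hy⟩
  exact (h1 x hx y hy).induce hx hy

theorem connected_singleton (w : V) : (H.induce ({w} : Set V)).Connected := by
  have h := connected_insert (H := H) ∅ w (by simp) (Or.inl rfl)
  have e : (insert w ∅ : Set V) = {w} := by simp
  rw [e] at h
  exact h

/-- a connecting set between `a` and `b` -/
theorem exists_link {Y : Set V} {a b : V} (ha : a ∉ Y) (hb : b ∉ Y) (hab : a ≠ b)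
    (h : Reach H (Y ∪ {a, b}) a b) :
    ∃ Z ⊆ Y, (∀ z ∈ Z, ∀ z' ∈ Z, Reach H Z z z') ∧ (∀ z ∈ Z, ∀ z' ∈ Y, H.Adj z z' → z' ∈ Z) ∧
      ((Z = ∅ ∧ H.Adj a b) ∨ ((∃ z ∈ Z, H.Adj a z) ∧ ∃ z ∈ Z, H.Adj b z)) := by
  by_cases hadj : H.Adj a b
  · exact ⟨∅, Set.empty_subset _, by simp, by simp, Or.inl ⟨rfl, hadj⟩⟩
  have key : ∃ z1 ∈ Y, H.Adj a z1 ∧ ∃ z2, Reach H Y z1 z2 ∧ H.Adj z2 b := by
    by_contra hcon
    push Not at hcon
    have step : ∀ x, Reach H (Y ∪ {a, b}) a x →
        x = a ∨ (x ∈ Y ∧ ∃ z1 ∈ Y, H.Adj a z1 ∧ Reach H Y z1 x) := by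
      intro x hx
      induction hx with
      | refl => exact Or.inl rfl
      | @tail x y _ hxy ih =>
        obtain ⟨h1, -, h3⟩ := hxy
        rcases h3 with h3 | h3 | h3
        · right
          refine ⟨h3, ?_⟩
          rcases ih with rfl | ⟨hxY, z1, hz1, haz1, hr⟩
          · exact ⟨y, h3, h1, Relation.ReflTransGen.refl⟩
          · exact ⟨z1, hz1, haz1, hr.tail ⟨h1, hxY, h3⟩⟩
        · exact Or.inl h3
        · have h3' : y = b := h3
          subst h3'
          rcases ih with rfl | ⟨hxY, z1, hz1, haz1, hr⟩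
          · exact absurd h1 hadj
          · exact absurd h1 (hcon z1 hz1 haz1 x hr)
    rcases step b h with h1 | h1
    · exact hab h1.symm
    · exact hb h1.1
  obtain ⟨z1, hz1, haz1, z2, hr, hz2b⟩ := key
  refine ⟨{z | Reach H Y z1 z}, fun z hz => Reach.mem hz hz1, ?_, ?_, Or.inr ⟨?_, ?_⟩⟩
  · intro z hz z' hz'
    exact (Reach.inside hz).symm.trans (Reach.inside hz')
  · intro z hz z' hz' h'
    exact Relation.ReflTransGen.tail hz ⟨h', Reach.mem hz hz1, hz'⟩
  · exact ⟨z1, Relation.ReflTransGen.refl, haz1⟩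
  · exact ⟨z2, hr, hz2b.symm⟩

/-- two connecting sets are equal or disjoint -/
theorem link_subset {Y Z Z' : Set V} (hZ : Z ⊆ Y) (h1 : ∀ z ∈ Z, ∀ z' ∈ Z, Reach H Z z z')
    (h2 : ∀ z ∈ Z', ∀ z' ∈ Y, H.Adj z z' → z' ∈ Z') {x : V} (hx : x ∈ Z) (hx' : x ∈ Z') :
    Z ⊆ Z' := by
  intro z hz
  have h := h1 x hx z hz
  have key : ∀ y, Reach H Z x y → y ∈ Z' := by
    intro y hy
    induction hy with
    | refl => exact hx'
    | tail _ h ih => exact h2 _ ih _ (hZ h.2.2) h.1
  exact key z h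

/-- Three triangles `u v (w i)` on the edge `u v`, such that no one of them separates the third
vertices of the other two, give a minor `K₅` or `K₃,₃`. -/
theorem minor_of_three {u v : V} {w : Fin 3 → V} {X : Set V} (huv : H.Adj u v)
    (hu : ∀ i, H.Adj u (w i)) (hv : ∀ i, H.Adj v (w i)) (hw : Function.Injective w)
    (huX : u ∉ X) (hvX : v ∉ X)
    (hconn : ∀ i j k, i ≠ j → i ≠ k → j ≠ k → Reach H (X \ {w i}) (w j) (w k)) :
    HasMinor H (⊤ : SimpleGraph (Fin 5)) ∨ HasMinor H (completeBipartiteGraph (Fin 3) (Fin 3)) := by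
  set Y : Set V := X \ Set.range w with hY
  have hwY : ∀ i, w i ∉ Y := fun i h => h.2 ⟨i, rfl⟩
  have huw : ∀ i, u ≠ w i := fun i => (hu i).ne
  have hvw : ∀ i, v ≠ w i := fun i => (hv i).ne
  have hlink : ∀ i j k : Fin 3, i ≠ j → i ≠ k → j ≠ k → ∃ Z ⊆ Y,
      (∀ z ∈ Z, ∀ z' ∈ Z, Reach H Z z z') ∧ (∀ z ∈ Z, ∀ z' ∈ Y, H.Adj z z' → z' ∈ Z) ∧
      ((Z = ∅ ∧ H.Adj (w j) (w k)) ∨ ((∃ z ∈ Z, H.Adj (w j) z) ∧ ∃ z ∈ Z, H.Adj (w k) z)) := by
    intro i j k hij hik hjk
    refine exists_link (hwY j) (hwY k) (fun h => hjk (hw h)) ?_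
    refine (hconn i j k hij hik hjk).mono ?_
    intro x hx
    by_cases hx' : x ∈ Set.range w
    · obtain ⟨l, rfl⟩ := hx'
      right
      have hli : l ≠ i := fun h => hx.2 (by rw [h]; rfl)
      have : l = j ∨ l = k := by omega
      rcases this with rfl | rfl
      · exact Or.inl rfl
      · exact Or.inr rfl
    · exact Or.inl ⟨hx.1, hx'⟩
  by_cases hall : ∃ Z ⊆ Y, Z.Nonempty ∧ (∀ z ∈ Z, ∀ z' ∈ Z, Reach H Z z z') ∧
      ∀ i, ∃ z ∈ Z, H.Adj (w i) z
  · right
    obtain ⟨Z, hZY, hZ0, hZ1, hZ2⟩ := hall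
    have huZ : u ∉ Z := fun h => huX (hZY h).1
    have hvZ : v ∉ Z := fun h => hvX (hZY h).1
    have hwZ : ∀ i, w i ∉ Z := fun i h => hwY i (hZY h)
    have hne := huv.ne
    refine ⟨Sum.elim ![{u}, {v}, Z] (fun i => {w i}), ?_, ?_, ?_⟩
    · rintro (i | i)
      · fin_cases i
        · exact connected_singleton u
        · exact connected_singleton v
        · exact connected_of Z hZ0 hZ1
      · exact connected_singleton (w i)
    · have hsym : ∀ i j : Fin 3, i ≠ j →
          Disjoint ((![{u}, {v}, Z] : Fin 3 → Set V) i) ((![{u}, {v}, Z] : Fin 3 → Set V) j) := by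
        intro i j hij
        fin_cases i <;> fin_cases j <;>
          simp_all [Set.disjoint_singleton_left, Set.disjoint_singleton_right, hne.symm]
      have hcross : ∀ i j : Fin 3, Disjoint ((![{u}, {v}, Z] : Fin 3 → Set V) i) {w j} := by
        intro i j
        fin_cases i
        · simpa using (huw j)
        · simpa using (hvw j)
        · simpa using (hwZ j)
      rintro (i | i) (j | j) hij
      · exact hsym i j (fun h => hij (by rw [h]))
      · exact hcross i j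
      · exact (hcross j i).symm
      · simp only [Sum.elim_inr, Set.disjoint_singleton]
        exact fun h => hij (by rw [hw h])
    · have hedge : ∀ i j : Fin 3, ∃ a ∈ (![{u}, {v}, Z] : Fin 3 → Set V) i,
          ∃ b ∈ ({w j} : Set V), H.Adj a b := by
        intro i j
        fin_cases i
        · exact ⟨u, rfl, w j, rfl, hu j⟩
        · exact ⟨v, rfl, w j, rfl, hv j⟩
        · obtain ⟨z, hz, hz'⟩ := hZ2 j
          exact ⟨z, hz, w j, rfl, hz'.symm⟩
      rintro (i | i) (j | j) hij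
      · simp at hij
      · exact hedge i j
      · obtain ⟨a, ha, b, hb, hab⟩ := hedge j i
        exact ⟨b, hb, a, ha, hab.symm⟩
      · simp at hij
  · left
    obtain ⟨Z0, h0Y, h0c, h0l, h0a⟩ := hlink 2 0 1 (by decide) (by decide) (by decide)
    obtain ⟨Z1, h1Y, h1c, h1l, h1a⟩ := hlink 0 1 2 (by decide) (by decide) (by decide)
    obtain ⟨Z2, h2Y, h2c, h2l, h2a⟩ := hlink 1 2 0 (by decide) (by decide) (by decide)
    -- `Z0` links `w 0`, `w 1`; `Z1` links `w 1`, `w 2`; `Z2` links `w 2`, `w 0`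
    have hdis : ∀ {Z Z' : Set V} (j k l : Fin 3), (∀ i : Fin 3, i = j ∨ i = k ∨ i = l) →
        Z ⊆ Y → (∀ z ∈ Z, ∀ z' ∈ Z, Reach H Z z z') →
        (∀ z ∈ Z, ∀ z' ∈ Y, H.Adj z z' → z' ∈ Z) →
        ((Z = ∅ ∧ H.Adj (w j) (w k)) ∨ ((∃ z ∈ Z, H.Adj (w j) z) ∧ ∃ z ∈ Z, H.Adj (w k) z)) →
        Z' ⊆ Y → (∀ z ∈ Z', ∀ z' ∈ Z', Reach H Z' z z') →
        (∀ z ∈ Z', ∀ z' ∈ Y, H.Adj z z' → z' ∈ Z') →
        ((Z' = ∅ ∧ H.Adj (w k) (w l)) ∨ ((∃ z ∈ Z', H.Adj (w k) z) ∧ ∃ z ∈ Z', H.Adj (w l) z)) →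
        Disjoint Z Z' := by
      intro Z Z' j k l hjkl hZY hZ1 hZ2 hZ3 hZY' hZ1' hZ2' hZ3'
      rw [Set.disjoint_left]
      intro x hx hx'
      have e : Z = Z' := Set.Subset.antisymm (link_subset hZY hZ1 hZ2' hx hx')
        (link_subset hZY' hZ1' hZ2 hx' hx)
      subst e
      rcases hZ3 with ⟨h, -⟩ | hZ3
      · rw [h] at hx; exact hx
      rcases hZ3' with ⟨h, -⟩ | hZ3'
      · rw [h] at hx; exact hx
      apply hall
      refine ⟨Z, hZY, ⟨x, hx⟩, hZ1, fun i => ?_⟩
      rcases hjkl i with rfl | rfl | rfl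
      · exact hZ3.1
      · exact hZ3.2
      · exact hZ3'.2
    have d01 : Disjoint Z0 Z1 := hdis 0 1 2 (by decide) h0Y h0c h0l h0a h1Y h1c h1l h1a
    have d12 : Disjoint Z1 Z2 := hdis 1 2 0 (by decide) h1Y h1c h1l h1a h2Y h2c h2l h2a
    have d20 : Disjoint Z2 Z0 := hdis 2 0 1 (by decide) h2Y h2c h2l h2a h0Y h0c h0l h0a
    have hnot : ∀ {Z : Set V}, Z ⊆ Y → u ∉ Z ∧ v ∉ Z ∧ ∀ i, w i ∉ Z := fun hZ =>
      ⟨fun h => huX (hZ h).1, fun h => hvX (hZ h).1, fun i h => hwY i (hZ h)⟩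
    obtain ⟨u0, v0, w0⟩ := hnot h0Y
    obtain ⟨u1, v1, w1⟩ := hnot h1Y
    obtain ⟨u2, v2, w2⟩ := hnot h2Y
    have hne := huv.ne
    have w01 : w 0 ≠ w 1 := fun h => absurd (hw h) (by decide)
    have w12 : w 1 ≠ w 2 := fun h => absurd (hw h) (by decide)
    have w02 : w 0 ≠ w 2 := fun h => absurd (hw h) (by decide)
    have c0 : (H.induce (insert (w 0) Z0)).Connected := connected_insert Z0 (w 0) h0c
      (by rcases h0a with h | h; exacts [Or.inl h.1, Or.inr h.1])
    have c1 : (H.induce (insert (w 1) Z1)).Connected := connected_insert Z1 (w 1) h1c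
      (by rcases h1a with h | h; exacts [Or.inl h.1, Or.inr h.1])
    have c2 : (H.induce (insert (w 2) Z2)).Connected := connected_insert Z2 (w 2) h2c
      (by rcases h2a with h | h; exacts [Or.inl h.1, Or.inr h.1])
    have a01 : ∃ a ∈ insert (w 0) Z0, ∃ b ∈ insert (w 1) Z1, H.Adj a b := by
      rcases h0a with h | ⟨-, z, hz, hz'⟩
      · exact ⟨w 0, Set.mem_insert _ _, w 1, Set.mem_insert _ _, h.2⟩
      · exact ⟨z, Set.mem_insert_of_mem _ hz, w 1, Set.mem_insert _ _, hz'.symm⟩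
    have a12 : ∃ a ∈ insert (w 1) Z1, ∃ b ∈ insert (w 2) Z2, H.Adj a b := by
      rcases h1a with h | ⟨-, z, hz, hz'⟩
      · exact ⟨w 1, Set.mem_insert _ _, w 2, Set.mem_insert _ _, h.2⟩
      · exact ⟨z, Set.mem_insert_of_mem _ hz, w 2, Set.mem_insert _ _, hz'.symm⟩
    have a02 : ∃ a ∈ insert (w 0) Z0, ∃ b ∈ insert (w 2) Z2, H.Adj a b := by
      rcases h2a with h | ⟨-, z, hz, hz'⟩
      · exact ⟨w 0, Set.mem_insert _ _, w 2, Set.mem_insert _ _, h.2.symm⟩
      · exact ⟨w 0, Set.mem_insert _ _, z, Set.mem_insert_of_mem _ hz, hz'⟩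
    have s01 : Disjoint (insert (w 0) Z0) (insert (w 1) Z1) := by
      rw [Set.disjoint_insert_left, Set.disjoint_insert_right]
      refine ⟨?_, w0 1, d01⟩
      rintro (h | h)
      exacts [w01 h, w1 0 h]
    have s12 : Disjoint (insert (w 1) Z1) (insert (w 2) Z2) := by
      rw [Set.disjoint_insert_left, Set.disjoint_insert_right]
      refine ⟨?_, w1 2, d12⟩
      rintro (h | h)
      exacts [w12 h, w2 1 h]
    have s02 : Disjoint (insert (w 0) Z0) (insert (w 2) Z2) := by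
      rw [Set.disjoint_insert_left, Set.disjoint_insert_right]
      refine ⟨?_, w0 2, d20.symm⟩
      rintro (h | h)
      exacts [w02 h, w2 0 h]
    have su : ∀ {Z : Set V} (i : Fin 3), u ∉ Z → Disjoint ({u} : Set V) (insert (w i) Z) := by
      intro Z i h
      rw [Set.disjoint_singleton_left]
      rintro (h' | h')
      exacts [huw i h', h h']
    have sv : ∀ {Z : Set V} (i : Fin 3), v ∉ Z → Disjoint ({v} : Set V) (insert (w i) Z) := by
      intro Z i h
      rw [Set.disjoint_singleton_left]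
      rintro (h' | h')
      exacts [hvw i h', h h']
    set B : Fin 5 → Set V := ![{u}, {v}, insert (w 0) Z0, insert (w 1) Z1, insert (w 2) Z2] with hB
    have hlt : ∀ i j : Fin 5, i < j → Disjoint (B i) (B j) ∧ ∃ a ∈ B i, ∃ b ∈ B j, H.Adj a b := by
      intro i j hij
      fin_cases i <;> fin_cases j <;> simp only [Fin.mk_lt_mk] at hij <;>
        first
        | exact absurd hij (by decide)
        | exact ⟨Set.disjoint_singleton.2 hne, u, rfl, v, rfl, huv⟩
        | exact ⟨su 0 u0, u, rfl, w 0, Set.mem_insert _ _, hu 0⟩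
        | exact ⟨su 1 u1, u, rfl, w 1, Set.mem_insert _ _, hu 1⟩
        | exact ⟨su 2 u2, u, rfl, w 2, Set.mem_insert _ _, hu 2⟩
        | exact ⟨sv 0 v0, v, rfl, w 0, Set.mem_insert _ _, hv 0⟩
        | exact ⟨sv 1 v1, v, rfl, w 1, Set.mem_insert _ _, hv 1⟩
        | exact ⟨sv 2 v2, v, rfl, w 2, Set.mem_insert _ _, hv 2⟩
        | exact ⟨s01, a01⟩
        | exact ⟨s12, a12⟩
        | exact ⟨s02, a02⟩
    refine ⟨B, ?_, ?_, ?_⟩
    · intro i
      fin_cases i
      exacts [connected_singleton u, connected_singleton v, c0, c1, c2]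
    · intro i j hij
      rcases lt_or_gt_of_ne hij with h | h
      · exact (hlt i j h).1
      · exact (hlt j i h).1.symm
    · intro i j hij
      have hij' : i ≠ j := by simpa using hij
      rcases lt_or_gt_of_ne hij' with h | h
      · exact (hlt i j h).2
      · obtain ⟨a, ha, b, hb, hab⟩ := (hlt j i h).2
        exact ⟨b, hb, a, ha, hab.symm⟩

end Pool.Agent.Q266.PT
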